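import Mathlib

set_option autoImplicit false

open Real

namespace Pool.Agent.Results.MP_1bbe3d_pr.EarlyFailure

/-- The transformed time `u(t) = τ₁ + β (t - τ₁)`. -/
noncomputable def u (τ β t : ℝ) : ℝ := τ + β * (t - τ)

/-- The quantity `Q(α, β)`. The failure times are `t 0 < … < t (n₁ + n₂ - 1)`, the first `n₁` of
them observed at the first stress level. -/
noncomputable def Q (n n₁ n₂ : ℕ) (τ η : ℝ) (t : ℕ → ℝ) (α β : ℝ) : ℝ :=
  ∑ i ∈ Finset.range n₁, t i ^ α + ∑ i ∈ Finset.Ico n₁ (n₁ + n₂), u τ β (t i) ^ α +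
    ((n : ℝ) - ((n₁ : ℝ) + n₂)) * u τ β η ^ α

/-- The log-likelihood `l(α, θ, β)` of the Type-I censored Weibull step-stress model. -/
noncomputable def logLik (n n₁ n₂ : ℕ) (τ η : ℝ) (t : ℕ → ℝ) (α θ β : ℝ) : ℝ :=
  ((n₁ : ℝ) + n₂) * log α + n₂ * log β - ((n₁ : ℝ) + n₂) * α * log θ +
    (α - 1) * (∑ i ∈ Finset.range n₁, log (t i) +
      ∑ i ∈ Finset.Ico n₁ (n₁ + n₂), log (u τ β (t i))) -
    θ ^ (-α) * Q n n₁ n₂ τ η t α β

/-- Admissible data: `0 < t_1 < ⋯ < t_{n₁} ≤ τ₁ < t_{n₁+1} < ⋯ < t_{n₁+n₂} ≤ η` with `n₁ + n₂ ≤ n`. -/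
structure Data (n n₁ n₂ : ℕ) (τ η : ℝ) (t : ℕ → ℝ) : Prop where
  size : n₁ + n₂ ≤ n
  pos : ∀ i < n₁ + n₂, 0 < t i
  incr : ∀ i j, i < j → j < n₁ + n₂ → t i < t j
  first : ∀ i < n₁, t i ≤ τ
  second : ∀ i, n₁ ≤ i → i < n₁ + n₂ → τ < t i
  cens : ∀ i < n₁ + n₂, t i ≤ η

lemma sub_exp_le (y : ℝ) : y - exp y ≤ -|y| := by
  rcases le_total 0 y with h | h
  · rw [abs_of_nonneg h]
    have := quadratic_le_exp_of_nonneg h
    nlinarith [sq_nonneg (y - 2)]
  · rw [abs_of_nonpos h]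
    have := exp_pos y
    linarith

section

variable {n n₁ n₂ : ℕ} {τ η : ℝ} {t : ℕ → ℝ}

lemma u_pos (hτ : 0 < τ) {β s : ℝ} (hβ : 0 < β) (hs : τ ≤ s) : 0 < u τ β s := by
  unfold u
  have := mul_nonneg hβ.le (sub_nonneg.2 hs)
  linarith

lemma eta_gt (D : Data n n₁ n₂ τ η t) (h2 : 1 ≤ n₂) : τ < η :=
  (D.second n₁ le_rfl (by omega)).trans_le (D.cens n₁ (by omega))

/-- The basic upper bound of the log-likelihood. -/
lemma bound (hτ : 0 < τ) (D : Data n n₁ n₂ τ η t) (h1 : 1 ≤ n₁) (h2 : 1 ≤ n₂) :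
    ∃ C : ℝ, ∀ α θ β : ℝ, 0 < α → 0 < θ → 0 < β →
      logLik n n₁ n₂ τ η t α θ β ≤ C + ((n₁ : ℝ) + n₂) * log α + min 0 (log β) -
        α * (|log (t 0) - log θ| + |log (u τ β (t n₁)) - log θ|) := by
  refine ⟨∑ i ∈ Finset.range n₁, |log (t i)| +
    ∑ i ∈ Finset.Ico n₁ (n₁ + n₂), (|log (t i - τ)| + |log τ|), ?_⟩
  intro α θ β hα hθ hβ
  have htp : ∀ i ∈ Finset.range n₁, 0 < t i := fun i hi =>
    D.pos i (by have := Finset.mem_range.1 hi; omega)
  have hup : ∀ i ∈ Finset.Ico n₁ (n₁ + n₂), 0 < u τ β (t i) := fun i hi => by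
    have := Finset.mem_Ico.1 hi
    exact u_pos hτ hβ (D.second i this.1 this.2).le
  have hupη : 0 < u τ β η := u_pos hτ hβ (eta_gt D h2).le
  -- the exponential part
  have term : ∀ v : ℝ, 0 < v → θ ^ (-α) * v ^ α = exp (α * (log v - log θ)) := by
    intro v hv
    rw [rpow_def_of_pos hθ, rpow_def_of_pos hv, ← exp_add]
    congr 1; ring
  have hQ : ∑ i ∈ Finset.range n₁, exp (α * (log (t i) - log θ)) +
      ∑ i ∈ Finset.Ico n₁ (n₁ + n₂), exp (α * (log (u τ β (t i)) - log θ)) ≤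
      θ ^ (-α) * Q n n₁ n₂ τ η t α β := by
    unfold Q
    rw [mul_add, mul_add, Finset.mul_sum, Finset.mul_sum]
    rw [Finset.sum_congr rfl fun i hi => term _ (htp i hi),
      Finset.sum_congr rfl fun i hi => term _ (hup i hi)]
    have hn : (0:ℝ) ≤ (n : ℝ) - ((n₁ : ℝ) + n₂) := by
      have : ((n₁ + n₂ : ℕ) : ℝ) ≤ n := by exact_mod_cast D.size
      push_cast at this
      linarith
    have : 0 ≤ θ ^ (-α) * (((n : ℝ) - ((n₁ : ℝ) + n₂)) * u τ β η ^ α) := by positivity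
    linarith
  -- the pieces
  have hr : ∑ i ∈ Finset.range n₁, (α * (log (t i) - log θ) - exp (α * (log (t i) - log θ))) ≤
      - (α * |log (t 0) - log θ|) := by
    have h3 : ∀ i ∈ Finset.range n₁, α * (log (t i) - log θ) - exp (α * (log (t i) - log θ)) ≤
        -(α * |log (t i) - log θ|) := fun i _ => by
      have := sub_exp_le (α * (log (t i) - log θ))
      rwa [abs_mul, abs_of_pos hα] at this
    refine (Finset.sum_le_sum h3).trans ?_
    rw [Finset.sum_neg_distrib, neg_le_neg_iff]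
    exact Finset.single_le_sum (f := fun i => α * |log (t i) - log θ|)
      (fun i _ => by positivity) (Finset.mem_range.2 (by omega))
  have hs : ∑ i ∈ Finset.Ico n₁ (n₁ + n₂), (α * (log (u τ β (t i)) - log θ) -
      exp (α * (log (u τ β (t i)) - log θ))) ≤ - (α * |log (u τ β (t n₁)) - log θ|) := by
    have h3 : ∀ i ∈ Finset.Ico n₁ (n₁ + n₂), α * (log (u τ β (t i)) - log θ) -
        exp (α * (log (u τ β (t i)) - log θ)) ≤ -(α * |log (u τ β (t i)) - log θ|) := fun i _ => by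
      have := sub_exp_le (α * (log (u τ β (t i)) - log θ))
      rwa [abs_mul, abs_of_pos hα] at this
    refine (Finset.sum_le_sum h3).trans ?_
    rw [Finset.sum_neg_distrib, neg_le_neg_iff]
    exact Finset.single_le_sum (f := fun i => α * |log (u τ β (t i)) - log θ|)
      (fun i _ => by positivity) (Finset.mem_Ico.2 ⟨le_rfl, by omega⟩)
  have hb : ∑ i ∈ Finset.Ico n₁ (n₁ + n₂), (log β - log (u τ β (t i))) ≤
      ∑ i ∈ Finset.Ico n₁ (n₁ + n₂), (|log (t i - τ)| + |log τ|) + min 0 (log β) := by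
    have h3 : ∀ i ∈ Finset.Ico n₁ (n₁ + n₂), log β - log (u τ β (t i)) ≤
        (|log (t i - τ)| + |log τ|) + min 0 (log β) := by
      intro i hi
      have hi' := Finset.mem_Ico.1 hi
      have hs : 0 < t i - τ := sub_pos.2 (D.second i hi'.1 hi'.2)
      have e1 : log β + log (t i - τ) ≤ log (u τ β (t i)) := by
        rw [← log_mul hβ.ne' hs.ne']
        refine log_le_log (by positivity) ?_
        unfold u; linarith
      have e2 : log τ ≤ log (u τ β (t i)) := by
        refine log_le_log hτ ?_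
        unfold u
        have := mul_nonneg hβ.le hs.le
        linarith
      have e3 := neg_abs_le (log (t i - τ))
      have e4 := neg_abs_le (log τ)
      have e5 := abs_nonneg (log (t i - τ))
      have e6 := abs_nonneg (log τ)
      rcases min_choice 0 (log β) with h | h <;> rw [h] <;> linarith
    refine (Finset.sum_le_sum h3).trans ?_
    rw [Finset.sum_add_distrib]
    have h4 : ∑ i ∈ Finset.Ico n₁ (n₁ + n₂), min 0 (log β) ≤ min 0 (log β) := by
      rw [Finset.sum_const, Nat.card_Ico, nsmul_eq_mul]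
      have h5 : min 0 (log β) ≤ 0 := min_le_left _ _
      have h6 : (1:ℝ) ≤ ((n₁ + n₂ - n₁ : ℕ) : ℝ) := by exact_mod_cast (by omega)
      nlinarith
    linarith
  have ht : -∑ i ∈ Finset.range n₁, log (t i) ≤ ∑ i ∈ Finset.range n₁, |log (t i)| := by
    rw [← Finset.sum_neg_distrib]
    exact Finset.sum_le_sum fun i _ => neg_le_abs _
  rw [Finset.sum_sub_distrib, ← Finset.mul_sum, Finset.sum_sub_distrib, Finset.sum_const,
    Finset.card_range, nsmul_eq_mul] at hr
  rw [Finset.sum_sub_distrib, ← Finset.mul_sum, Finset.sum_sub_distrib, Finset.sum_const,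
    Nat.card_Ico, nsmul_eq_mul, Nat.add_sub_cancel_left] at hs
  rw [Finset.sum_sub_distrib, Finset.sum_const, Nat.card_Ico, nsmul_eq_mul,
    Nat.add_sub_cancel_left] at hb
  unfold logLik
  nlinarith

/-- The region where the likelihood is not small is bounded and away from the boundary. -/
lemma region (hτ : 0 < τ) (D : Data n n₁ n₂ τ η t) (h1 : 1 ≤ n₁) (h2 : 1 ≤ n₂) (h0 : t 0 < τ)
    (R : ℝ) : ∃ a b : ℝ, 0 < a ∧ a ≤ 1 ∧ 1 ≤ b ∧ ∀ α θ β : ℝ, 0 < α → 0 < θ → 0 < β →
      R ≤ logLik n n₁ n₂ τ η t α θ β →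
      (α ∈ Set.Icc a b ∧ θ ∈ Set.Icc a b ∧ β ∈ Set.Icc a b) := by
  obtain ⟨C, hC⟩ := bound hτ D h1 h2
  set m : ℝ := (n₁ : ℝ) + n₂ with hm
  have hm0 : 0 < m := by
    have : (1:ℝ) ≤ n₁ := by exact_mod_cast h1
    have : (0:ℝ) ≤ n₂ := by positivity
    rw [hm]; linarith
  have ht0 : 0 < t 0 := D.pos 0 (by omega)
  set δ : ℝ := log τ - log (t 0) with hδ
  have hδ0 : 0 < δ := by
    have := log_lt_log ht0 h0
    rw [hδ]; linarith
  have hsp : 0 < t n₁ - τ := sub_pos.2 (D.second n₁ le_rfl (by omega))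
  -- constants
  set E : ℝ := m * log (2 * m / δ) with hE
  have hlog : ∀ α : ℝ, 0 < α → m * log α ≤ δ / 2 * α + E := by
    intro α hα
    have h := log_le_sub_one_of_pos (show 0 < α / (2 * m / δ) by positivity)
    rw [log_div hα.ne' (by positivity)] at h
    have h3 := mul_le_mul_of_nonneg_left h hm0.le
    have h4 : m * (α / (2 * m / δ) - 1) = δ / 2 * α - m := by field_simp
    rw [h4] at h3
    rw [hE]
    nlinarith
  set αmin : ℝ := exp ((R - C) / m) with hαmin
  set αmax : ℝ := (C + E - R) * 2 / δ with hαmax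
  set G : ℝ := (C - R + m * log αmax) / αmin with hG
  refine ⟨min 1 (min αmin (min (exp (R - C - E)) (exp (log (t 0) - G)))),
    max 1 (max αmax (max (exp (log (t 0) + G)) (exp (log (t 0) + G - log (t n₁ - τ))))), ?_, ?_, ?_, ?_⟩
  · have := exp_pos (R - C - E)
    have := exp_pos (log (t 0) - G)
    have : 0 < αmin := exp_pos _
    positivity
  · exact min_le_left _ _
  · exact le_max_left _ _
  · intro α θ β hα hθ hβ hR
    have hb := hR.trans (hC α θ β hα hθ hβ)
    have hup : 0 < u τ β (t n₁) := u_pos hτ hβ (by linarith)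
    have e1 : log β + log (t n₁ - τ) ≤ log (u τ β (t n₁)) := by
      rw [← log_mul hβ.ne' hsp.ne']
      refine log_le_log (by positivity) ?_
      unfold u; linarith
    have e2 : log τ ≤ log (u τ β (t n₁)) := by
      refine log_le_log hτ ?_
      unfold u
      have := mul_nonneg hβ.le hsp.le
      linarith
    set w := log (u τ β (t n₁)) with hw
    set z := log θ with hz
    set a1 := log (t 0) with ha1
    have d1 : w - a1 ≤ |a1 - z| + |w - z| := by
      have := neg_abs_le (a1 - z)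
      have := le_abs_self (w - z)
      linarith
    have d2 : 0 ≤ |w - z| := abs_nonneg _
    have d3 : 0 ≤ |a1 - z| := abs_nonneg _
    have hmin0 : min 0 (log β) ≤ 0 := min_le_left _ _
    have hminb : min 0 (log β) ≤ log β := min_le_right _ _
    have hD : δ ≤ |a1 - z| + |w - z| := by rw [hδ]; linarith
    have hαD : α * δ ≤ α * (|a1 - z| + |w - z|) := mul_le_mul_of_nonneg_left hD hα.le
    have hl := hlog α hα
    -- bounds on α
    have b1 : αmin ≤ α := by
      rw [hαmin, ← le_log_iff_exp_le hα, div_le_iff₀ hm0]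
      have : 0 ≤ α * δ := by positivity
      linarith
    have b2 : α ≤ αmax := by
      rw [hαmax, le_div_iff₀ hδ0]
      nlinarith
    have hαminpos : 0 < αmin := exp_pos _
    -- bound on β from below
    have b3 : exp (R - C - E) ≤ β := by
      rw [← le_log_iff_exp_le hβ]
      have : 0 ≤ α * δ := by positivity
      nlinarith
    -- bound on D
    have b4 : |a1 - z| + |w - z| ≤ G := by
      rw [hG, le_div_iff₀ hαminpos]
      have h3 : αmin * (|a1 - z| + |w - z|) ≤ α * (|a1 - z| + |w - z|) :=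
        mul_le_mul_of_nonneg_right b1 (by positivity)
      have h4 : m * log α ≤ m * log αmax :=
        mul_le_mul_of_nonneg_left (log_le_log hα b2) hm0.le
      nlinarith
    have b5 : exp (a1 - G) ≤ θ := by
      rw [← le_log_iff_exp_le hθ]
      have := le_abs_self (a1 - z)
      linarith
    have b6 : θ ≤ exp (a1 + G) := by
      rw [← log_le_iff_le_exp hθ]
      have := neg_abs_le (a1 - z)
      linarith
    have b7 : β ≤ exp (a1 + G - log (t n₁ - τ)) := by
      rw [← log_le_iff_le_exp hβ]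
      linarith
    refine ⟨⟨?_, ?_⟩, ⟨?_, ?_⟩, ⟨?_, ?_⟩⟩
    · exact (min_le_right _ _).trans ((min_le_left _ _).trans b1)
    · exact b2.trans ((le_max_left _ _).trans (le_max_right _ _))
    · exact (min_le_right _ _).trans ((min_le_right _ _).trans ((min_le_right _ _).trans b5))
    · exact b6.trans ((le_max_left _ _).trans ((le_max_right _ _).trans (le_max_right _ _)))
    · exact (min_le_right _ _).trans ((min_le_right _ _).trans ((min_le_left _ _).trans b3))
    · exact b7.trans ((le_max_right _ _).trans ((le_max_right _ _).trans (le_max_right _ _)))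

/-- **Existence of maximum likelihood estimates.** If at least one item fails strictly before
`τ₁` and at least one item fails after `τ₁`, the log-likelihood attains its maximum on
`(0, ∞)³`. -/
theorem result (hτ : 0 < τ) (D : Data n n₁ n₂ τ η t) (h1 : 1 ≤ n₁) (h2 : 1 ≤ n₂) (h0 : t 0 < τ) :
    ∃ α₀ θ₀ β₀ : ℝ, 0 < α₀ ∧ 0 < θ₀ ∧ 0 < β₀ ∧ ∀ α θ β : ℝ, 0 < α → 0 < θ → 0 < β →
      logLik n n₁ n₂ τ η t α θ β ≤ logLik n n₁ n₂ τ η t α₀ θ₀ β₀ := by
  obtain ⟨a, b, ha, ha1, hb1, hab⟩ := region hτ D h1 h2 h0 (logLik n n₁ n₂ τ η t 1 1 1)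
  set K : Set (ℝ × ℝ × ℝ) := Set.Icc a b ×ˢ (Set.Icc a b ×ˢ Set.Icc a b) with hK
  have hKc : IsCompact K := isCompact_Icc.prod (isCompact_Icc.prod isCompact_Icc)
  have h1mem : (1 : ℝ) ∈ Set.Icc a b := ⟨ha1, hb1⟩
  have hKne : K.Nonempty := ⟨(1, 1, 1), h1mem, h1mem, h1mem⟩
  have hcont : ContinuousOn (fun p : ℝ × ℝ × ℝ => logLik n n₁ n₂ τ η t p.1 p.2.1 p.2.2) K := by
    have pa : ∀ p ∈ K, (0:ℝ) < p.1 := fun p hp => ha.trans_le hp.1.1
    have pθ : ∀ p ∈ K, (0:ℝ) < p.2.1 := fun p hp => ha.trans_le hp.2.1.1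
    have pβ : ∀ p ∈ K, (0:ℝ) < p.2.2 := fun p hp => ha.trans_le hp.2.2.1
    have cu : ∀ s : ℝ, ContinuousOn (fun p : ℝ × ℝ × ℝ => u τ p.2.2 s) K := by
      intro s; unfold u; fun_prop
    have cup : ∀ s : ℝ, τ ≤ s → ∀ p ∈ K, 0 < u τ p.2.2 s := fun s hs p hp => u_pos hτ (pβ p hp) hs
    have c1 : ContinuousOn (fun p : ℝ × ℝ × ℝ => p.1) K := by fun_prop
    have c2 : ContinuousOn (fun p : ℝ × ℝ × ℝ => p.2.1) K := by fun_prop
    have c3 : ContinuousOn (fun p : ℝ × ℝ × ℝ => p.2.2) K := by fun_prop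
    have cl1 := c1.log fun p hp => (pa p hp).ne'
    have cl2 := c2.log fun p hp => (pθ p hp).ne'
    have cl3 := c3.log fun p hp => (pβ p hp).ne'
    have cs1 : ContinuousOn (fun p : ℝ × ℝ × ℝ => ∑ i ∈ Finset.Ico n₁ (n₁ + n₂),
        log (u τ p.2.2 (t i))) K := by
      refine continuousOn_finsetSum _ fun i hi => (cu _).log fun p hp => ?_
      have := Finset.mem_Ico.1 hi
      exact (cup _ (D.second i this.1 this.2).le p hp).ne'
    have cr : ContinuousOn (fun p : ℝ × ℝ × ℝ => p.2.1 ^ (-p.1)) K :=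
      c2.rpow c1.neg fun p hp => Or.inl (pθ p hp).ne'
    have cQ : ContinuousOn (fun p : ℝ × ℝ × ℝ => Q n n₁ n₂ τ η t p.1 p.2.2) K := by
      unfold Q
      refine ((continuousOn_finsetSum _ fun i hi => ?_).add
        (continuousOn_finsetSum _ fun i hi => ?_)).add (continuousOn_const.mul ?_)
      · exact continuousOn_const.rpow c1 fun p hp => Or.inl
          (D.pos i (by have := Finset.mem_range.1 hi; omega)).ne'
      · have := Finset.mem_Ico.1 hi
        exact (cu _).rpow c1 fun p hp => Or.inl (cup _ (D.second i this.1 this.2).le p hp).ne'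
      · exact (cu _).rpow c1 fun p hp => Or.inl (cup _ (eta_gt D h2).le p hp).ne'
    unfold logLik
    exact ((((continuousOn_const.mul cl1).add (continuousOn_const.mul cl3)).sub
      ((continuousOn_const.mul c1).mul cl2)).add ((c1.sub continuousOn_const).mul
      (continuousOn_const.add cs1))).sub (cr.mul cQ)
  obtain ⟨p, hp, hmax⟩ := hKc.exists_isMaxOn hKne hcont
  refine ⟨p.1, p.2.1, p.2.2, ha.trans_le hp.1.1, ha.trans_le hp.2.1.1, ha.trans_le hp.2.2.1, ?_⟩
  intro α θ β hα hθ hβ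
  rcases le_total (logLik n n₁ n₂ τ η t 1 1 1) (logLik n n₁ n₂ τ η t α θ β) with h | h
  · obtain ⟨k1, k2, k3⟩ := hab α θ β hα hθ hβ h
    exact hmax (show ((α, θ, β) : ℝ × ℝ × ℝ) ∈ K from ⟨k1, k2, k3⟩)
  · exact h.trans (hmax (show (((1:ℝ), (1:ℝ), (1:ℝ)) : ℝ × ℝ × ℝ) ∈ K from ⟨h1mem, h1mem, h1mem⟩))

end

end Pool.Agent.Results.MP_1bbe3d_pr.EarlyFailure
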