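import Mathlib

set_option autoImplicit false

open Real

namespace Pool.Agent.Results.MP_1bbe3d_pr.NoMaximum

/-- The transformed time `u(t) = τ₁ + β (t - τ₁)`. -/
noncomputable def u (τ β t : ℝ) : ℝ := τ + β * (t - τ)

/-- The quantity `Q(α, β)`. The failure times are `t 0 < … < t (n₁ + n₂ - 1)`, the first `n₁` of
them observed at the first stress level. -/
noncomputable def Q (n n₁ n₂ : ℕ) (τ η : ℝ) (t : ℕ → ℝ) (α β : ℝ) : ℝ :=
  ∑ i ∈ Finset.range n₁, t i ^ α + ∑ i ∈ Finset.Ico n₁ (n₁ + n₂), u τ β (t i) ^ α +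
    ((n : ℝ) - ((n₁ : ℝ) + n₂)) * u τ β η ^ α

/-- The log-likelihood `l(α, θ, β)` of the Type-I censored Weibull step-stress model. -/
noncomputable def logLik (n n₁ n₂ : ℕ) (τ η : ℝ) (t : ℕ → ℝ) (α θ β : ℝ) : ℝ :=
  ((n₁ : ℝ) + n₂) * log α + n₂ * log β - ((n₁ : ℝ) + n₂) * α * log θ +
    (α - 1) * (∑ i ∈ Finset.range n₁, log (t i) +
      ∑ i ∈ Finset.Ico n₁ (n₁ + n₂), log (u τ β (t i))) -
    θ ^ (-α) * Q n n₁ n₂ τ η t α β

/-- Admissible data: `0 < t_1 < ⋯ < t_{n₁} ≤ τ₁ < t_{n₁+1} < ⋯ < t_{n₁+n₂} ≤ η` with `n₁ + n₂ ≤ n`. -/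
structure Data (n n₁ n₂ : ℕ) (τ η : ℝ) (t : ℕ → ℝ) : Prop where
  size : n₁ + n₂ ≤ n
  pos : ∀ i < n₁ + n₂, 0 < t i
  incr : ∀ i j, i < j → j < n₁ + n₂ → t i < t j
  first : ∀ i < n₁, t i ≤ τ
  second : ∀ i, n₁ ≤ i → i < n₁ + n₂ → τ < t i
  cens : ∀ i < n₁ + n₂, t i ≤ η

/-- the failure times of the example -/
noncomputable def tt : ℕ → ℝ
  | 0 => 1 + 3 / 1000000
  | 1 => 1 + 8 / 1000000
  | _ => 2

lemma data : Data 3 0 3 1 2 tt where
  size := le_rfl
  pos := by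
    intro i hi
    have : i < 3 := by omega
    interval_cases i <;> norm_num [tt]
  incr := by
    intro i j hij hj
    have : j < 3 := by omega
    have : i < 3 := by omega
    interval_cases j <;> interval_cases i <;> first | omega | norm_num [tt]
  first := by intro i hi; omega
  second := by
    intro i _ hi
    have : i < 3 := by omega
    interval_cases i <;> norm_num [tt]
  cens := by
    intro i hi
    have : i < 3 := by omega
    interval_cases i <;> norm_num [tt]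

lemma lik_eq (α θ β : ℝ) : logLik 3 0 3 1 2 tt α θ β =
    3 * log α + 3 * log β - 3 * α * log θ + (α - 1) * (log (1 + β * (3 / 1000000)) +
      log (1 + β * (8 / 1000000)) + log (1 + β)) -
    θ ^ (-α) * ((1 + β * (3 / 1000000)) ^ α + (1 + β * (8 / 1000000)) ^ α + (1 + β) ^ α) := by
  have h0 : u 1 β (tt 0) = 1 + β * (3 / 1000000) := by simp [u, tt]
  have h1 : u 1 β (tt 1) = 1 + β * (8 / 1000000) := by simp [u, tt]
  have h2 : u 1 β (tt 2) = 1 + β := by simp only [u, tt]; ring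
  unfold logLik Q
  simp only [Finset.range_zero, Finset.sum_empty, zero_add,
    ← Finset.range_eq_Ico, Finset.sum_range_succ, h0, h1, h2]
  push_cast
  ring

/-- The bound for the shape parameter above one. -/
lemma upper (α θ β : ℝ) (hα : 1 < α) (hθ : 0 < θ) (hβ : 0 < β) :
    logLik 3 0 3 1 2 tt α θ β ≤ 3 * log 6 - 9 / 2 := by
  have hα0 : 0 < α := by linarith
  rw [lik_eq]
  set u1 := 1 + β * (3 / 1000000) with hu1
  set u2 := 1 + β * (8 / 1000000) with hu2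
  set u3 := 1 + β with hu3
  have p1 : 0 < u1 := by positivity
  have p2 : 0 < u2 := by positivity
  have p3 : 0 < u3 := by positivity
  -- the exponential term
  have hX : θ ^ (-α) * (u1 ^ α + u2 ^ α + u3 ^ α) ≥ (u3 / θ) ^ α := by
    rw [div_rpow p3.le hθ.le, rpow_neg hθ.le, div_eq_mul_inv, mul_comm (u3 ^ α)]
    have q1 : 0 < u1 ^ α := rpow_pos_of_pos p1 _
    have q2 : 0 < u2 ^ α := rpow_pos_of_pos p2 _
    have : 0 < (θ ^ α)⁻¹ := inv_pos.2 (rpow_pos_of_pos hθ _)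
    have := mul_pos this (add_pos q1 q2)
    nlinarith
  have hX0 : 0 < (u3 / θ) ^ α := rpow_pos_of_pos (by positivity) _
  have hlogX : log ((u3 / θ) ^ α) = α * (log u3 - log θ) := by
    rw [log_rpow (by positivity), log_div p3.ne' hθ.ne']
  have h1 : 3 * log ((u3 / θ) ^ α) - (u3 / θ) ^ α ≤ 3 * log 3 - 3 := by
    have := log_le_sub_one_of_pos (show 0 < (u3 / θ) ^ α / 3 by positivity)
    rw [log_div hX0.ne' (by norm_num)] at this
    linarith
  rw [hlogX] at h1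
  -- the logarithms
  have g : ∀ v : ℝ, 0 < v → v ≤ 1 + β / 4 → (3 / 4) * (β / (1 + β)) ≤ log u3 - log v := by
    intro v hv hv2
    rw [← log_div p3.ne' hv.ne']
    have h2 := one_sub_inv_le_log_of_pos (show 0 < u3 / v by positivity)
    refine le_trans ?_ h2
    rw [inv_div]
    have h3 : v / u3 ≤ (1 + β / 4) / u3 := by gcongr
    have h4 : (1 + β / 4) / u3 = 1 - (3 / 4) * (β / (1 + β)) := by
      rw [hu3]; field_simp; ring
    linarith
  have g1 := g u1 p1 (by rw [hu1]; linarith)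
  have g2 := g u2 p2 (by rw [hu2]; linarith)
  set r := α * β / (1 + β) with hr
  have hr0 : 0 < r := by positivity
  have hlogr : log r = log α + log β - log u3 := by
    rw [hr, log_div (by positivity) (by positivity), log_mul hα0.ne' hβ.ne']
  have h5 : 3 * log r - 3 / 2 * r ≤ 3 * log 2 - 3 := by
    have := log_le_sub_one_of_pos (show 0 < r / 2 by positivity)
    rw [log_div hr0.ne' (by norm_num)] at this
    linarith
  have h6 : (α - 1) * (β / (1 + β)) ≥ r - 1 := by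
    have e : (α - 1) * (β / (1 + β)) = r - β / (1 + β) := by rw [hr]; ring
    have : β / (1 + β) ≤ 1 := by rw [div_le_one (by positivity)]; linarith
    rw [e]; linarith
  have h7 : (α - 1) * ((log u3 - log u1) + (log u3 - log u2)) ≥ 3 / 2 * (r - 1) := by
    have := mul_le_mul_of_nonneg_left (add_le_add g1 g2) (show 0 ≤ α - 1 by linarith)
    nlinarith
  have h8 : log 6 = log 2 + log 3 := by rw [← log_mul (by norm_num) (by norm_num)]; norm_num
  rw [h8]
  rw [hlogr] at h5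
  nlinarith

/-- The value at a comparison point. -/
lemma value : 3 * log 6 - 9 / 2 < logLik 3 0 3 1 2 tt (1 / 2) 1000000 1000000 := by
  rw [lik_eq]
  have e1 : (1:ℝ) + 1000000 * (3 / 1000000) = 2 ^ 2 := by norm_num
  have e2 : (1:ℝ) + 1000000 * (8 / 1000000) = 3 ^ 2 := by norm_num
  rw [e1, e2]
  have h2 := log_two_lt_d9
  have h2' := log_two_gt_d9
  have h10 : (2:ℝ) < log 10 := by
    rw [lt_log_iff_exp_lt (by norm_num)]
    have := exp_one_lt_d9
    have h : exp 2 = exp 1 ^ 2 := by rw [← exp_nat_mul]; norm_num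
    rw [h]
    calc exp 1 ^ 2 ≤ 2.7182818286 ^ 2 := pow_le_pow_left₀ (exp_pos _).le this.le 2
      _ < 10 := by norm_num
  have h3 : log 3 < 6 / 5 := by
    rw [log_lt_iff_lt_exp (by norm_num)]
    have := exp_one_gt_d9
    have h : exp (6 / 5) = exp 1 * exp (1 / 5) := by rw [← exp_add]; norm_num
    have h' := add_one_le_exp (1 / 5 : ℝ)
    rw [h]
    nlinarith [exp_pos 1]
  have hL : log 1000000 = 6 * log 10 := by
    rw [show (1000000 : ℝ) = 10 ^ 6 by norm_num, log_pow]; norm_num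
  have hL1 : log (1 + 1000000) ≤ log 2 + 6 * log 10 := by
    rw [← hL, ← log_mul (by norm_num) (by norm_num)]
    exact log_le_log (by norm_num) (by norm_num)
  have h6 : log 6 = log 2 + log 3 := by rw [← log_mul (by norm_num) (by norm_num)]; norm_num
  have hh : log (1 / 2) = - log 2 := by rw [one_div, log_inv]
  have l1 : log ((2:ℝ) ^ 2) = 2 * log 2 := by rw [log_pow]; norm_num
  have l2 : log ((3:ℝ) ^ 2) = 2 * log 3 := by rw [log_pow]; norm_num
  have r1 : ((2:ℝ) ^ 2) ^ (1 / 2 : ℝ) = 2 := by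
    rw [← sqrt_eq_rpow, sqrt_sq (by norm_num)]
  have r2 : ((3:ℝ) ^ 2) ^ (1 / 2 : ℝ) = 3 := by
    rw [← sqrt_eq_rpow, sqrt_sq (by norm_num)]
  have r3 : ((1:ℝ) + 1000000) ^ (1 / 2 : ℝ) ≤ 1001 := by
    rw [← sqrt_eq_rpow]
    exact sqrt_le_iff.2 ⟨by norm_num, by norm_num⟩
  have r4 : (1000000 : ℝ) ^ (-(1 / 2) : ℝ) = 1 / 1000 := by
    rw [rpow_neg (by norm_num), ← sqrt_eq_rpow, show (1000000 : ℝ) = 1000 ^ 2 by norm_num,
      sqrt_sq (by norm_num)]
    norm_num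
  rw [hh, l1, l2, r1, r2, r4, hL, h6]
  generalize ((1:ℝ) + 1000000) ^ (1 / 2 : ℝ) = Y at r3 ⊢
  generalize log ((1:ℝ) + 1000000) = Z at hL1 ⊢
  generalize log (10:ℝ) = L at h10 hL1 ⊢
  generalize log (2:ℝ) = l at h2 h2' hL1 ⊢
  generalize log (3:ℝ) = k at h3 ⊢
  linarith

/-- For shape parameter at most one, doubling both `θ` and `β` increases the likelihood. -/
lemma improve (α θ β : ℝ) (hα : 0 < α) (hα1 : α ≤ 1) (hθ : 0 < θ) (hβ : 0 < β) :
    logLik 3 0 3 1 2 tt α θ β < logLik 3 0 3 1 2 tt α (2 * θ) (2 * β) := by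
  rw [lik_eq, lik_eq]
  have key : ∀ s : ℝ, 0 < s → log (1 + 2 * β * s) ≤ log 2 + log (1 + β * s) ∧
      (1 + 2 * β * s) ^ α < 2 ^ α * (1 + β * s) ^ α := by
    intro s hs
    have p1 : 0 < 1 + β * s := by positivity
    have p2 : 0 < 1 + 2 * β * s := by positivity
    constructor
    · rw [← log_mul (by norm_num) p1.ne']
      exact log_le_log p2 (by linarith)
    · rw [← mul_rpow (by norm_num) p1.le]
      exact rpow_lt_rpow p2.le (by linarith) hα
  obtain ⟨a1, b1⟩ := key (3 / 1000000) (by norm_num)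
  obtain ⟨a2, b2⟩ := key (8 / 1000000) (by norm_num)
  obtain ⟨a3, b3⟩ := key 1 (by norm_num)
  simp only [mul_one] at a3 b3
  rw [log_mul (by norm_num) hθ.ne', log_mul (by norm_num) hβ.ne', rpow_neg hθ.le,
    rpow_neg (show (0:ℝ) ≤ 2 * θ by positivity), mul_rpow (by norm_num) hθ.le]
  have hT : 0 < θ ^ α := rpow_pos_of_pos hθ _
  have h2 : 0 < (2:ℝ) ^ α := rpow_pos_of_pos (by norm_num) _
  set A := (1 + β * (3 / 1000000)) ^ α + (1 + β * (8 / 1000000)) ^ α + (1 + β) ^ α with hA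
  set A' := (1 + 2 * β * (3 / 1000000)) ^ α + (1 + 2 * β * (8 / 1000000)) ^ α + (1 + 2 * β) ^ α
    with hA'
  have h3 : A' < 2 ^ α * A := by rw [hA, hA']; linarith
  have h4 : (2 ^ α * θ ^ α)⁻¹ * A' < (θ ^ α)⁻¹ * A := by
    rw [mul_inv]
    have : (2 ^ α : ℝ)⁻¹ * A' < A := by
      rw [inv_mul_lt_iff₀ h2]; exact h3
    have h5 := mul_lt_mul_of_pos_left this (inv_pos.2 hT)
    calc (2 ^ α : ℝ)⁻¹ * (θ ^ α)⁻¹ * A' = (θ ^ α)⁻¹ * ((2 ^ α)⁻¹ * A') := by ring
      _ < _ := h5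
  have h5 : 0 ≤ 1 - α := by linarith
  have h6 := mul_le_mul_of_nonneg_left (add_le_add (add_le_add a1 a2) a3) h5
  nlinarith

/-- **The likelihood of the Weibull step-stress model need not attain its supremum.** There are
admissible data with `n₂ ≠ 0` and `n₁ + n₂ ≥ 3` for which no point of `(0, ∞)³` maximises the
log-likelihood. -/
theorem result : ∃ (n n₁ n₂ : ℕ) (τ η : ℝ) (t : ℕ → ℝ), 0 < τ ∧ τ < η ∧
    Data n n₁ n₂ τ η t ∧ n₂ ≠ 0 ∧ 3 ≤ n₁ + n₂ ∧
    ¬ ∃ α₀ θ₀ β₀ : ℝ, 0 < α₀ ∧ 0 < θ₀ ∧ 0 < β₀ ∧ ∀ α θ β : ℝ, 0 < α → 0 < θ → 0 < β →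
      logLik n n₁ n₂ τ η t α θ β ≤ logLik n n₁ n₂ τ η t α₀ θ₀ β₀ := by
  refine ⟨3, 0, 3, 1, 2, tt, one_pos, by norm_num, data, by norm_num, by norm_num, ?_⟩
  rintro ⟨α, θ, β, hα, hθ, hβ, hmax⟩
  rcases le_or_gt α 1 with h | h
  · exact absurd (hmax α (2 * θ) (2 * β) hα (by positivity) (by positivity))
      (not_le.2 (improve α θ β hα h hθ hβ))
  · have h1 := hmax (1 / 2) 1000000 1000000 (by norm_num) (by norm_num) (by norm_num)
    exact absurd (value.trans_le (h1.trans (upper α θ β h hθ hβ))) (lt_irrefl _)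

end Pool.Agent.Results.MP_1bbe3d_pr.NoMaximum
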